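import Pool.Agent.Lib.MP_30b5b4_an.L.Defs

/-! The layer in the quotient. -/

open scoped CStarAlgebra ComplexOrder Topology
open Filter

set_option linter.unusedSectionVars false
set_option linter.style.haveILetI false
set_option linter.unusedVariables false
set_option linter.unusedSimpArgs false
set_option synthInstance.maxSize 1000000

namespace Pool.Agent.Lib.MP_30b5b4_an

universe u v

section alg
variable {B : Type u} [CStarAlgebra B] [PartialOrder B] [StarOrderedRing B]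

lemma defect_cfc {q e u : B} (q0 : IsSelfAdjoint q) (hc : Commute q e)
    (h : u * ((1 - q) * e) = (1 - q) * e) {f : ℝ → ℝ} (hf : Continuous f) (f1 : f 1 = 0) :
    u * (cfc f q * e) = cfc f q * e := by
  have a1 : (1 - u) * e * q = (1 - u) * e := by
    have : (1 - u) * ((1 - q) * e) = 0 := by rw [sub_mul 1 u, h, one_mul, sub_self]
    rw [sub_mul 1 q, one_mul, mul_sub, sub_eq_zero, hc.eq, ← mul_assoc] at this
    exact this.symm
  have a2 := congrArg star (cfc_mul_eq_zero' q0 (y := star ((1 - u) * e))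
    (by rw [← q0.star_eq, ← star_mul, a1]) hf f1)
  rw [star_mul, star_star, IsSelfAdjoint.cfc.star_eq, star_zero, mul_assoc,
    ← (hc.cfc_real f).eq, sub_mul, one_mul, sub_eq_zero] at a2
  exact a2.symm

lemma cfc_one_sub' {f : ℝ → ℝ} (hf : Continuous f) {a : B} (ha : IsSelfAdjoint a) :
    cfc (fun t => 1 - f t) a = 1 - cfc f a := by
  rw [cfc_sub (fun _ => 1) f a continuousOn_const hf.continuousOn, cfc_const_one ℝ a]

lemma din_alg {P T : Type} [Fintype P] [DecidableEq P] [Fintype T] (t0 : T) {S : Set B}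
    {e γ q : B} {c : (P × Bool) × T → B} {x : Option ((P × Bool) × T) → B} (h : Slot e c x γ)
    (c0 : ∀ l, c l ∈ Cn S) (x0 : ∀ s, x s ∈ Cn S) (q0 : 0 ≤ q) (q1 : q ≤ 1) (hq : q ∈ Cn S)
    (qe : Commute q e) (qc : ∀ l, Commute q (c l) ∧ Commute q (star (c l)))
    (qx : ∀ s, Commute q (x s)) {v : P × Bool → B} (w0 : ∀ p, v p ∈ Cn S)
    (w1 : ∀ p, q * v p = v p) (w2 : ∀ p, star (v p) * v p * ((1 - q) * e) = (1 - q) * e)
    (w4 : ∀ μ : P × Bool → ℝ, (∀ l, 0 ≤ μ l) → (∀ l, μ l ≤ 1) →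
      ∀ p, (∑ l, μ l.1 • gr 3 (c l)) * v p = μ p • v p) {η : ℝ} (hη : 0 < η) :
    ∃ (q' : B) (s Γ : P → B) (Z : P → Option (Option ((P × Bool) × T)) → B),
      (0 ≤ q' ∧ q' ≤ 1 ∧ ‖q' - q‖ ≤ η ∧ q' ∈ Cn S) ∧ ∑ p, s p ≤ 1 ∧ ∀ p,
        (s p = cfc (rp (1 / 4) 1) (∑ l, (if l.1.1 = p then 1 else 0 : ℝ) • gr 3 (c l)) ∧
          0 ≤ s p ∧ Commute q' (s p) ∧ IsSelfAdjoint (Γ p)) ∧
        (s p ∈ Cn S ∧ Γ p ∈ Cn S ∧ ∀ k, Z p k ∈ Cn S) ∧
        (q' * v (p, true) = v (p, true) ∧ q' * Γ p = Γ p ∧ star (v (p, true)) * Γ p = 0 ∧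
          ∀ k, Γ p * Z p k = Z p k) ∧
        (∀ p', s p' * v (p, true) = (if p' = p then v (p, true) else 0) ∧
          s p' * Γ p = if p' = p then Γ p else 0) ∧
        star (v (p, true)) * v (p, true) * ((1 - q') * e) = (1 - q') * e ∧
          (∑ k, star (Z p k) * Z p k) * e = e := by
  classical
  let W : (P × Bool → ℝ) → B := fun μ => ∑ l, μ l.1 • gr 3 (c l)
  have G2 : ∀ l l', l ≠ l' → gr 3 (c l) * gr 3 (c l') = 0 := fun l l' hl =>
    mul_cfc_eq_zero (mul_star_self_nonneg _).isSelfAdjoint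
      (by rw [← mul_assoc, h.gr_mul hl, zero_mul]) (by fun_prop) (cl_of_nonpos (by simp))
  have WW : ∀ μ ν, W μ * W ν = ∑ l, (μ l.1 * ν l.1) • (gr 3 (c l) * gr 3 (c l)) := fun μ ν => by
    simp only [W]
    rw [Finset.sum_mul_sum]
    refine Finset.sum_congr rfl fun l _ => ?_
    rw [Finset.sum_eq_single l (fun l' _ hl => by
      rw [smul_mul_smul_comm, G2 _ _ hl.symm, smul_zero]) (by simp), smul_mul_smul_comm]
  have W0 : ∀ μ ν, (∀ l, μ l * ν l = 0) → W μ * W ν = 0 := fun μ ν hμ => by simp [WW, hμ]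
  have W1 : ∀ μ ν, Commute (W μ) (W ν) := fun μ ν => by
    rw [Commute, SemiconjBy, WW, WW]; simp only [mul_comm (μ _)]
  have W2 : ∀ μ, Commute q (W μ) := fun μ => Commute.sum_right _ _ _ fun l _ =>
    ((((qc l).1.mul_right (qc l).2).symm.cfc_real _).symm).smul_right _
  have W3 : ∀ μ, W μ ∈ Cn S := fun μ => sum_mem fun l _ => by
    rw [← Complex.coe_smul]; exact SMulMemClass.smul_mem _ (gr_mem (c0 l) 3)
  have W4 : ∀ μ ν, (∀ l, μ l ≤ ν l) → W μ ≤ W ν := fun μ ν hμ => by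
    rw [← sub_nonneg, ← Finset.sum_sub_distrib]
    refine Finset.sum_nonneg fun l _ => ?_
    rw [← sub_smul]
    exact smul_nonneg (sub_nonneg.2 (hμ _)) (gr_nonneg _ _)
  let μ : P → P × Bool → ℝ := fun p l => if l.1 = p then 1 else 0
  let ν : P → P × Bool → ℝ := fun p l => if l = (p, false) then 1 else 0
  have μ0 : ∀ p l, 0 ≤ μ p l := fun p l => by simp only [μ]; split_ifs <;> simp
  have μ1 : ∀ p l, μ p l ≤ 1 := fun p l => by simp only [μ]; split_ifs <;> simp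
  have ν0 : ∀ p l, 0 ≤ ν p l := fun p l => by simp only [ν]; split_ifs <;> simp
  have ν1 : ∀ p l, ν p l ≤ 1 := fun p l => by simp only [ν]; split_ifs <;> simp
  have σ0 := fun p => h.weight (fun l => μ p l.1) (fun l => μ0 _ _) fun l => μ1 _ _
  have τ0 := fun p => h.weight (fun l => ν p l.1) (fun l => ν0 _ _) fun l => ν1 _ _
  have σ1 : ∀ p, IsSelfAdjoint (W (μ p)) := fun p => (σ0 p).1.isSelfAdjoint
  have τ1 : ∀ p, IsSelfAdjoint (W (ν p)) := fun p => (τ0 p).1.isSelfAdjoint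
  have r1 : rp (1 / 4) 1 1 = 1 := rp_one (by norm_num) (by norm_num)
  have r3 : rp (1 / 4) 3 1 = 1 := rp_one (by norm_num) (by norm_num)
  have qs := q0.isSelfAdjoint
  let X : ℝ → ℝ := fun t => 2 - (1 - t) / (η / 2)
  have X1 : X 1 = 2 := by simp [X]
  let β : ℝ → ℝ := fun t => cl (X t)
  let y2 : ℝ → ℝ := fun t => cl (X t - 1)
  let y1 : ℝ → ℝ := fun t => √(1 - y2 t * y2 t)
  let k : ℝ → ℝ := fun t => cl (t + η)
  have cβ : Continuous β := by fun_prop
  have c2 : Continuous y2 := by fun_prop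
  have c1 : Continuous y1 := by fun_prop
  have ck : Continuous k := by fun_prop
  have β1 : β 1 = 1 := cl_of_one_le (by rw [X1]; norm_num)
  have y21 : y2 1 = 1 := cl_of_one_le (by rw [X1]; norm_num)
  have y11 : y1 1 = 0 := by simp [y1, y21]
  have k1 : k 1 = 1 := cl_of_one_le (by linarith)
  have b1 : cfc β q * cfc y2 q = cfc y2 q := by
    rw [cfc_mul' cβ c2]
    refine congrArg (cfc · q) (funext fun t => ?_)
    simpa using cl_tier (x := X t) (zero_lt_one' ℕ)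
  have b2 : cfc k q * cfc β q = cfc β q := by
    rw [cfc_mul' ck cβ]
    refine congrArg (cfc · q) (funext fun t => ?_)
    rcases le_total 1 (t + η) with h1 | h1
    · simp only [k]; rw [cl_of_one_le h1, one_mul]
    · have : 2 ≤ (1 - t) / (η / 2) := (le_div_iff₀ (by positivity)).2 (by linarith)
      simp only [β]; rw [cl_of_nonpos (by simp only [X]; linarith), mul_zero]
  have b3 : cfc y1 q * cfc y1 q + cfc y2 q * cfc y2 q = 1 := by
    rw [cfc_mul' c1 c1, cfc_mul' c2 c2, ← cfc_add q (fun s => y1 s * y1 s) (fun s => y2 s * y2 s)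
      (c1.mul c1).continuousOn (c2.mul c2).continuousOn, ← cfc_const_one ℝ q]
    refine congrArg (cfc · q) (funext fun t => ?_)
    simp only [y1]
    rw [Real.mul_self_sqrt (sub_nonneg.2 (mul_le_one₀ (cl_le_one _) (cl_nonneg _) (cl_le_one _))),
      sub_add_cancel]
  have cq : ∀ {a : B}, Commute q a → ∀ f : ℝ → ℝ, Commute (cfc f q) a := fun ha f => ha.cfc_real f
  have cw : ∀ μ (f g : ℝ → ℝ), Commute (cfc f q) (cfc g (W μ)) := fun μ f g =>
    cq ((W2 μ).symm.cfc_real g).symm f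
  have mq : ∀ f : ℝ → ℝ, cfc f q ∈ Cn S := fun f => cfc_mem_cl (Cn_closed S) f hq
  have mw : ∀ μ (f : ℝ → ℝ), cfc f (W μ) ∈ Cn S := fun μ f => cfc_mem_cl (Cn_closed S) f (W3 μ)
  have or1 : ∀ μ ν, IsSelfAdjoint (W μ) → IsSelfAdjoint (W ν) → (∀ l, μ l * ν l = 0) →
      ∀ m m', cfc (rp (1 / 4) m) (W μ) * cfc (rp (1 / 4) m') (W ν) = 0 := fun μ ν a1 a2 a3 m m' =>
    cfc_mul_eq_zero a1 (mul_cfc_eq_zero a2 (W0 μ ν a3) (rp_cont _ _) (rp_at_zero _ _))
      (rp_cont _ _) (rp_at_zero _ _)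
  refine ⟨cfc k q, fun p => cfc (rp (1 / 4) 1) (W (μ p)),
    fun p => cfc (rp (1 / 4) 3) (W (ν p)) * cfc β q,
    fun p o => o.elim (v (p, false) * cfc y1 q) fun s => c ((p, false), t0) * x s * cfc y2 q,
    ⟨cfc_nonneg fun _ _ => cl_nonneg _, cfc_le_one _ _ fun _ _ => cl_le_one _, ?_, mq _⟩, ?_,
    fun p => ⟨⟨rfl, (rp_mem _ _ _).1, cw _ _ _, ?_⟩, ⟨mw _ _, mul_mem (mw _ _) (mq _), ?_⟩,
      ⟨cfc_mul_eq_self qs (w1 _) ck k1, ?_, ?_, ?_⟩, fun p' => ⟨?_, ?_⟩, ?_, ?_⟩⟩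
  · conv_lhs => enter [1, 2]; rw [← cfc_id' ℝ q]
    rw [← cfc_sub k (fun t => t) q ck.continuousOn continuousOn_id]
    refine norm_cfc_le hη.le fun t ht => ?_
    obtain ⟨t0, t1⟩ := spec_mem q0 q1 ht
    simp only [k, cl, Real.norm_eq_abs]
    rw [max_eq_right (le_min zero_le_one (by linarith)), abs_le]
    constructor
    · linarith [le_min t1 (show t ≤ t + η by linarith)]
    · linarith [min_le_right 1 (t + η)]
  · refine le_one_of_norm (Finset.sum_nonneg fun p _ => (rp_mem _ _ _).1)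
      (sum_le_of_orth _ _ zero_le_one (fun p _ => (rp_mem _ _ _).1)
        (fun p _ p' _ hp => or1 _ _ (σ1 p) (σ1 p') (fun l => ?_) 1 1)
        fun p _ => norm_le_one_of (rp_mem _ _ _).1 (rp_mem _ _ _).2)
    simp only [μ]
    split_ifs with a1 a2
    exacts [(hp (a1.symm.trans a2)).elim, mul_zero _, zero_mul _, mul_zero _]
  · rw [IsSelfAdjoint, star_mul, IsSelfAdjoint.cfc.star_eq, IsSelfAdjoint.cfc.star_eq,
      (cw _ _ _).eq]
  · rintro (_ | s)
    exacts [mul_mem (w0 _) (mq _), mul_mem (mul_mem (c0 _) (x0 _)) (mq _)]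
  · rw [← mul_assoc, (cw _ _ _).eq, mul_assoc, b2]
  · have a1 : W (ν p) * v (p, true) = 0 := by
      rw [w4 (ν p) (ν0 p) (ν1 p)]; simp [ν]
    have a2 := congrArg star (cfc_mul_eq_zero (τ1 p) a1 (rp_cont (1 / 4) 3) (rp_at_zero _ _))
    rw [star_mul, IsSelfAdjoint.cfc.star_eq, star_zero] at a2
    rw [← mul_assoc, a2, zero_mul]
  · rintro (_ | s)
    · have a1 : W (ν p) * v (p, false) = v (p, false) := by
        rw [w4 (ν p) (ν0 p) (ν1 p)]; simp [ν]
      simp only [Option.elim_none]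
      rw [← mul_assoc, mul_assoc _ _ (v _), cfc_mul_eq_self qs (w1 _) cβ β1,
        cfc_mul_eq_self (τ1 p) a1 (rp_cont _ _) r3]
    · have a1 : W (ν p) * (c ((p, false), t0) * x s) = c ((p, false), t0) * x s := by
        rw [(τ0 p).2.2 _ _ (h.s2 s)]; simp [ν]
      simp only [Option.elim_some]
      rw [mul_assoc, ← mul_assoc (cfc β q), (cq ((qc _).1.mul_right (qx s)) β).eq,
        mul_assoc _ (cfc β q), b1, ← mul_assoc, cfc_mul_eq_self (τ1 p) a1 (rp_cont _ _) r3]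
  · rw [cfc_mul_eigen (σ1 p') (w4 (μ p') (μ0 p') (μ1 p') _) (rp_cont _ _)]
    simp only [μ, eq_comm (a := p')]
    split_ifs
    · rw [r1, one_smul]
    · rw [rp_at_zero, zero_smul]
  · rw [← mul_assoc]
    split_ifs with hp
    · subst hp
      have a1 := cfc_orth_of_le (τ1 p') (σ1 p') (W4 _ _ fun l => by
          simp only [μ, ν]
          split_ifs with a1 a2
          exacts [le_rfl, (a2 (by rw [a1])).elim, zero_le_one, le_rfl]) (W1 _ _)
        (f := fun t => 1 - rp (1 / 4) 1 t) (g := rp (1 / 4) 3) (by fun_prop) (rp_cont _ _)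
        (θ := 1 / 2) (fun t ht => by rw [rp_one (by norm_num) (by push_cast; linarith), sub_self])
        (fun t ht => cl_of_nonpos (by push_cast; linarith))
      rw [cfc_one_sub' (rp_cont _ _) (σ1 p'), sub_mul, one_mul, sub_eq_zero] at a1
      rw [← a1]
    · rw [or1 _ _ (σ1 p') (τ1 p) (fun l => ?_), zero_mul]
      simp only [μ, ν]
      split_ifs with a1 a2
      exacts [(hp (by rw [← a1, a2])).elim, mul_zero _, zero_mul _, mul_zero _]
  · have a1 := defect_cfc qs qe (w2 (p, true)) (f := fun t => 1 - k t) (continuous_const.sub ck)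
      (by rw [k1, sub_self])
    rwa [cfc_one_sub' ck qs] at a1
  · rw [Fintype.sum_option, add_mul]
    simp only [Option.elim_none, Option.elim_some, star_mul, IsSelfAdjoint.cfc.star_eq]
    have a1 : ∀ s, cfc y2 q * (star (x s) * star (c ((p, false), t0))) *
        (c ((p, false), t0) * x s * cfc y2 q) = cfc y2 q * (star (x s) * x s) * cfc y2 q :=
      fun s => by
        rw [← mul_assoc, mul_assoc (cfc y2 q), mul_assoc (star (x s)), ← mul_assoc (star (c _)),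
          h.s1, h.s2]
    simp only [a1]
    have a2 : cfc y2 q * (∑ s, star (x s) * x s) * cfc y2 q * e = cfc y2 q * cfc y2 q * e := by
      rw [mul_assoc, (cq qe y2).eq, ← mul_assoc, mul_assoc _ _ e, h.s3, mul_assoc, mul_assoc,
        (cq qe y2).eq]
    have a3 : cfc y1 q * star (v (p, false)) * (v (p, false) * cfc y1 q) * e =
        cfc y1 q * cfc y1 q * e := by
      have := defect_cfc qs qe (w2 (p, false)) c1 y11
      simp only [mul_assoc] at this ⊢
      rw [this]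
    rw [← Finset.sum_mul, ← Finset.mul_sum, a2, a3, ← add_mul, b3, one_mul]

end alg

variable {J E : Type*} {A : Type u} {A' : Type v} [NonUnitalCStarAlgebra J] [PartialOrder J]
  [StarOrderedRing J] [NonUnitalCStarAlgebra E] [PartialOrder E] [StarOrderedRing E]
  [CStarAlgebra A] [PartialOrder A] [StarOrderedRing A] [CStarAlgebra A'] [PartialOrder A']
  [StarOrderedRing A'] {j : J →⋆ₙₐ[ℂ] A} {jE : E →⋆ₙₐ[ℂ] A} {π : A →⋆ₐ[ℂ] A'}

theorem dIn {n : ℕ} (hA : ApA A (n + 1)) (hj : Idl j) (hs : ∀ e ∈ Iw j, HS e) {τ β : Type}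
    [Finite τ] [Finite β] (P : Type) [Fintype P] [DecidableEq P] [Nonempty P] {η : ℝ} (hη : 0 < η)
    (T : τ → UA A) (B : β → UA A) (hB : ∀ b, B b ∈ Iw j) : DIn P η T B := by
  classical
  obtain ⟨e, e1, e2, e0, -, e4⟩ := hj.tier T B hB
  replace hs := hs e e2
  let L := P × Bool
  let T0 := Option (Fin (n + 1) × Option (Option L × Option (Fin (n + 1) × Bool)))
  let T' : τ → UA A := fun t => ((‖T t‖ + 1 : ℝ) : ℂ)⁻¹ • T t
  have T1 : ∀ t, T t = ((‖T t‖ + 1 : ℝ) : ℂ) • T' t := fun t => by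
    rw [smul_smul, mul_inv_cancel₀ (Complex.ofReal_ne_zero.2 (by positivity)), one_smul]
  have T2 : ∀ t, ‖T' t‖ ≤ 1 := fun t => by
    rw [norm_smul, norm_inv, Complex.norm_real, Real.norm_of_nonneg (by positivity),
      inv_mul_le_iff₀ (by positivity)]
    linarith
  let S0 : Set (UA A) := insert e (Set.range T)
  have f0 : S0.Finite := (Set.finite_range _).insert _
  obtain ⟨c, xs, γ, s, c0, xs0⟩ := hs (L × T0) (Fintype.one_lt_card_iff.2
    ⟨((Classical.arbitrary P, true), none), ((Classical.arbitrary P, false), none),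
      by simp [L]⟩) f0
  let σ : P → UA A := fun p => ∑ l, (if l.1.1 = p then 1 else 0 : ℝ) • gr 3 (c l)
  have σ0 := fun p => s.weight (fun l => (if l.1.1 = p then 1 else 0 : ℝ))
    (fun l => by split_ifs <;> simp) fun l => by split_ifs <;> simp
  let b : τ ⊕ P → UA A := Sum.elim T' σ
  have b1 : ∀ i, ‖b i‖ ≤ 1 := by
    rintro (t | p)
    exacts [T2 t, norm_le_one_of (σ0 p).1 (σ0 p).2.1]
  let f : Option ((τ ⊕ P) × Fin 3) → UA A := fun o => o.elim 1 fun p =>
    ![b p.1, star (b p.1) * b p.1, b p.1 * star (b p.1)] p.2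
  have f1 : ∀ a ∈ Set.range f, ‖a‖ ≤ 1 := by
    rintro _ ⟨_ | ⟨i, l⟩, rfl⟩
    · exact norm_one_le' _
    · have := mul_le_one₀ (b1 i) (norm_nonneg _) (b1 i)
      fin_cases l
      exacts [b1 i, CStarRing.norm_star_mul_self.trans_le this,
        CStarRing.norm_self_mul_star.trans_le this]
  let S' := S0 ∪ (Set.range c ∪ Set.range xs ∪ Set.range f)
  obtain ⟨q, ρ', ρ, Z, R, st, hq⟩ := stack hA (Option L) hs (S := S') (F := Set.range f)
    (f0.union (((Set.finite_range _).union (Set.finite_range _)).union (Set.finite_range _)))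
    (Or.inl (Or.inl rfl)) (fun _ ha => Or.inr (Or.inr ha)) f1 (fun _ => 1)
    (fun _ => ⟨Or.inr (Or.inr ⟨none, rfl⟩), zero_le_one, le_rfl, fun a _ => Commute.one_left a⟩)
    (Finset.univ : Finset (Option (L × T0)))
  obtain ⟨V, v0, v1, v2, v3⟩ := st.finish (Or.inl (Or.inl rfl))
    (fun o => o.elim (none, none) fun p => (p.2, some p.1)) (by
      rintro (_ | p) (_ | p') hp
      · rfl
      · simp at hp
      · simp at hp
      · simp only [Option.elim_some, Prod.mk.injEq, Option.some.injEq] at hp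
        exact congrArg some (Prod.ext hp.2 hp.1))
  have m1 : ∀ l, c l ∈ S' := fun l => Or.inr (Or.inl (Or.inl ⟨l, rfl⟩))
  have m2 : ∀ l, xs l ∈ S' := fun l => Or.inr (Or.inl (Or.inr ⟨l, rfl⟩))
  obtain ⟨v, w0, w1, w2, -, w4⟩ := copies' s Set.subset_union_left (Or.inl rfl) c0 xs0 m1 m2
    st.mq v0 v1 v2 v3
  obtain ⟨G, hG⟩ := (hq true).exact
  rw [mul_one] at hG
  have G1 : uT G 1 = q := (hG none).trans (mul_one q)
  have G2 : ∀ i, b i ∈ VS G := fun i => mem_VS_iff.2 ⟨⟨G1 ▸ hG (some (i, 0)), G1 ▸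
    (hG (some (i, 0))).trans (Cn_comm st.mq (Or.inr (Or.inr ⟨some (i, 0), rfl⟩))).eq⟩,
    G1 ▸ hG (some (i, 1)), G1 ▸ hG (some (i, 2))⟩
  have m3 : ∀ {z}, z ∈ Cn S0 → z ∈ Cn (Set.range T) := Cn_mono (Set.subset_insert _ _)
  obtain ⟨q', s', Γ, Z', h1, h2, h3⟩ := din_alg (none : T0) s (fun l => m3 (c0 l))
    (fun l => m3 (xs0 l)) st.q0 st.q1 (m3 (Cn_mono Set.subset_union_left st.mq))
    (Cn_comm st.mq (Or.inl (Or.inl rfl))) (fun l => ⟨Cn_comm st.mq (m1 l), Cn_comm' st.mq (m1 l)⟩)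
    (fun l => Cn_comm st.mq (m2 l)) (fun l => m3 (w0 l)) w1 w2 w4 hη
  refine ⟨_, inferInstance, G, q', s', fun p => v (p, true), Γ, Z', fun t => ?_, G1 ▸ h1, h2,
    fun p => ?_⟩
  · rw [T1 t]; exact SMulMemClass.smul_mem _ (G2 (.inl t))
  obtain ⟨⟨a1, a2⟩, ⟨a3, a4⟩, a5, a6, a7, a8⟩ := h3 p
  refine ⟨⟨a1 ▸ cfc_mem_cl (VS_closed G) _ (G2 (.inr p)), a2⟩, ⟨a3, m3 (w0 _), a4⟩, a5, a6,
    fun i => ⟨?_, ?_⟩⟩
  · rw [← e4 i, ← mul_assoc (1 - q'), ← mul_assoc, a7]
  · rw [← e4 i, ← mul_assoc, a8]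

end Pool.Agent.Lib.MP_30b5b4_an
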