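import Pool.Agent.Lib.MP_30b5b4_an.DefsS
import Pool.Agent.Lib.MP_30b5b4_an.T.Q
import Pool.Agent.Lib.MP_30b5b4_an.Mor4

/-! Large extensions: internal definitions. -/

open scoped CStarAlgebra ComplexOrder Topology
open Filter

set_option linter.unusedSectionVars false
set_option linter.style.haveILetI false
set_option linter.unusedVariables false
set_option linter.unusedSimpArgs false
set_option synthInstance.maxSize 1000000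

namespace Pool.Agent.Lib.MP_30b5b4_an

universe u v

variable {J E : Type*} {A : Type u} {A' : Type v} [NonUnitalCStarAlgebra J] [PartialOrder J]
  [StarOrderedRing J] [NonUnitalCStarAlgebra E] [PartialOrder E] [StarOrderedRing E]
  [CStarAlgebra A] [PartialOrder A] [StarOrderedRing A] [CStarAlgebra A'] [PartialOrder A']
  [StarOrderedRing A']

/-- `π` is the quotient map for the ideal `j`. -/
structure Qt (j : J →⋆ₙₐ[ℂ] A) (π : A →⋆ₐ[ℂ] A') : Prop where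
  idl : Idl j
  surj : Function.Surjective π
  ker : ∀ a, π a = 0 ↔ ∃ b, j b = a

def FarA (j : J →⋆ₙₐ[ℂ] A) (jE : E →⋆ₙₐ[ℂ] A) : Prop :=
  ∀ g b : A, (∃ c, jE c = g) → (∃ c, jE c = b) → star g = g → (∃ c, j c = g * b - b) →
    ∃ a, (∃ c, j c = a - b) ∧ ∀ x g', (∃ c, j c = x) → (∃ c, j c = g' - g) → CuLE (a * x) g'

def LargeA (j : J →⋆ₙₐ[ℂ] A) (jE : E →⋆ₙₐ[ℂ] A) : Prop :=
  ∀ b : A, (∃ c, jE c = b) → (∃ c, j c = b) ∨ ∀ x, (∃ c, j c = x) → CuLE x b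

def PUA (j : J →⋆ₙₐ[ℂ] A) : Prop :=
  ∀ x : A, (∃ c, j c = x) → ∀ ε : ℝ, 0 < ε →
    ∃ p, (∃ c, j c = p) ∧ IsStarProjection p ∧ ‖p * x - x‖ < ε

/-- `a x` can be moved under the far part of `g`. -/
def Mv (j : J →⋆ₙₐ[ℂ] A) (a g : UA A) : Prop :=
  ∀ x ∈ Iw j, ∀ τ ∈ Iw j, IsSelfAdjoint τ → ∃ w ∈ Iw j,
    star w * w = star (a * x) * (a * x) ∧ ∀ c, c * ((1 - τ) * g) = 0 → c * w = 0

lemma exists_uH (π : A →⋆ₐ[ℂ] A') :
    ∃ H : UA A →⋆ₐ[ℂ] UA A', ∀ x, H (Ult.mk x) = Ult.mk (bHom π x) := by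
  obtain ⟨T, hT⟩ := Ult.exists_map (A := fun _ : ℕ => A) (B := fun _ : ℕ => A')
    (fun _ => lin π) fun _ => hom_norm_le π
  replace hT : ∀ x, T (Ult.mk x) = Ult.mk (bHom π x) := hT
  have h1 : T 1 = 1 := by rw [← map_one Ult.mk, hT, map_one, map_one]
  refine ⟨{ AlgHom.ofLinearMap T h1 fun x y => ?_ with map_star' := fun x => ?_ }, hT⟩
  · obtain ⟨x, rfl⟩ := Ult.surj x
    obtain ⟨y, rfl⟩ := Ult.surj y
    rw [← map_mul, hT, hT, hT, map_mul, map_mul]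
  · obtain ⟨x, rfl⟩ := Ult.surj x
    change T _ = star (T _)
    rw [← map_star, hT, hT, map_star, map_star]

/-- the ultrapower of a homomorphism -/
noncomputable def uH (π : A →⋆ₐ[ℂ] A') : UA A →⋆ₐ[ℂ] UA A' := (exists_uH π).choose

lemma uH_mk (π : A →⋆ₐ[ℂ] A') (x : BA A) : uH π (Ult.mk x) = Ult.mk (bHom π x) :=
  (exists_uH π).choose_spec x

lemma uH_dg (π : A →⋆ₐ[ℂ] A') (a : A) : uH π (dg a) = dg (π a) :=
  (uH_mk π _).trans (congrArg Ult.mk (Bdd.ext fun _ => rfl))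

/-- output of the middle layer, local form -/
def MidL {σ : Type} {N' : ℕ} (N M : ℕ) (δ η : ℝ) (S : σ → UA A) (f : Fin N' → ℕ → CA A) : Prop :=
  ∃ z : UA A, ‖z‖ ≤ 1 ∧ ∃ g : Fin N → UA A, (∀ i, ‖g i‖ ≤ 1) ∧
    ∃ w : Fin N → UA A, (∀ i, ‖w i‖ ≤ 1) ∧ ∃ X : Fin N → UA A, (∀ i, ‖X i‖ ≤ 1) ∧
    ∃ W : Fin N × Fin M × Fin N' → UA A, (∀ p, ‖W p‖ ≤ 1) ∧ ∃ d : Fin N → ℕ → CA A,
      (∀ i, 0 ≤ w i ∧ w i ≤ g i ∧ Commute (w i) (g i) ∧ w i ∈ Cn (Set.range S) ∧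
        g i ∈ Cn (Set.range S) ∧ g i - w i = z * X i) ∧ ∑ i, g i = 1 ∧
      (∀ i, Commute (uT (f i) 1) z) ∧
      (∀ p, (g p.1 - w p.1) * W p = 0 ∧ g p.1 * W p = ((((p.2.1 : ℕ) : ℝ) + 1) / M) • W p ∧
        (∀ p', p ≠ p' → star (W p) * W p' = 0) ∧
        star (W p) * W p * (z * cf (rp δ 3) (uφ (f p.2.2) 1)) = z * cf (rp δ 3) (uφ (f p.2.2) 1) ∧
        Commute (W p) (cf (Gf δ) (uφ (f p.2.2) 1) * uT (f p.2.2) 1) ∧ ∀ l,
          Commute (W p) (cf (Gf δ) (uφ (f p.2.2) 1) * uT (f p.2.2) (S l)) ∧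
          Commute (W p) (cf (Gf δ) (uφ (f p.2.2) 1) * uT (f p.2.2) (star (S l)))) ∧
      ∀ i l, ‖uT (d i) (S l) - w i * S l‖ ≤ η

lemma MidL.clo {σ : Type} [Finite σ] {N' : ℕ} (N M : ℕ) {δ : ℝ} (hδ : 0 < δ) (η : ℝ) :
    Clo fun g : (σ → UA A) × (Fin N' → ℕ → CA A) => MidL N M δ η g.1 g.2 := by
  haveI : Fact (Continuous (rp δ 3)) := ⟨rp_cont _ _⟩
  haveI : Fact (Continuous (Gf δ)) := ⟨Gf_cont hδ⟩
  unfold MidL; infer_instance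

/-- the weight `g` is carried by one colour that sees the family `b` on the support of `g` -/
def Piece {ι : Type} (b : ι → UA A) (g : UA A) : Prop :=
  ∃ (d : ℕ → CA A) (y e : UA A), g = uT d 1 * y ∧ 0 ≤ y ∧ y ≤ 1 ∧ y ∈ VS d ∧ IsSelfAdjoint e ∧
    y * e = y ∧ ∀ i, Commute y (b i) ∧ Commute e (b i) ∧ e * b i ∈ VS d

/-- output of the layer in the quotient -/
def DIn {τ β : Type} (P : Type) [Fintype P] [DecidableEq P] (η : ℝ) (T : τ → UA A)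
    (B : β → UA A) : Prop :=
  ∃ (K : Type) (_ : Fintype K) (G : ℕ → CA A) (q : UA A) (s v Γ : P → UA A) (Z : P → K → UA A),
    (∀ t, T t ∈ VS G) ∧ (0 ≤ q ∧ q ≤ 1 ∧ ‖q - uT G 1‖ ≤ η ∧ q ∈ Cn (Set.range T)) ∧
    ∑ p, s p ≤ 1 ∧ ∀ p, (s p ∈ VS G ∧ 0 ≤ s p ∧ Commute q (s p) ∧ IsSelfAdjoint (Γ p)) ∧
      (s p ∈ Cn (Set.range T) ∧ v p ∈ Cn (Set.range T) ∧ Γ p ∈ Cn (Set.range T) ∧
        ∀ k, Z p k ∈ Cn (Set.range T)) ∧
      (q * v p = v p ∧ q * Γ p = Γ p ∧ star (v p) * Γ p = 0 ∧ ∀ k, Γ p * Z p k = Z p k) ∧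
      (∀ p', s p' * v p = (if p' = p then v p else 0) ∧
        s p' * Γ p = if p' = p then Γ p else 0) ∧
      ∀ b, star (v p) * v p * ((1 - q) * B b) = (1 - q) * B b ∧
        (∑ k, star (Z p k) * Z p k) * B b = B b

noncomputable def gm (δ s : ℝ) : ℝ := √(rp δ 1 s * Gf δ s)

lemma gm_cont {δ : ℝ} (hδ : 0 < δ) : Continuous (gm δ) :=
  Real.continuous_sqrt.comp ((rp_cont _ _).mul (Gf_cont hδ))

/-- bubbles, at the level of the finer colours -/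
def BubP {ι τ β : Type} (P : Type) (δ : ℝ) (m : β → ι) (f : ι → ℕ → CA A) (t e : UA A)
    (T : τ → UA A) (al : β → UA A) : Prop :=
  ∃ V : β × P → UA A, (∀ x, ‖V x‖ ≤ 1) ∧ ∃ c : P × ι → ℕ → CA A,
    (∀ k, uφ (c k) 1 * uφ (c k) 1 = uφ (c k) 1 ∧ t * uφ (c k) 1 = 0 ∧
      (∀ k', k ≠ k' → uφ (c k) 1 * uφ (c k') 1 = 0) ∧ ∀ l,
        Commute (uφ (c k) 1) (PT (f k.2) δ (T l)) ∧ uT (c k) (T l) = uφ (c k) 1 *
          (cf (gm δ) (PT (f k.2) δ 1) * PT (f k.2) δ (T l) * cf (gm δ) (PT (f k.2) δ 1))) ∧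
    ∀ x, star (V x) * V x = e ∧ cf (rp (1 / 8) 3) (uT (c (x.2, m x.1)) (al x.1)) * V x = V x

lemma BubP.clo {ι τ β : Type} [Finite ι] [Finite τ] [Finite β] (P : Type) [Finite P] {δ : ℝ}
    (hδ : 0 < δ) (m : β → ι) :
    Clo fun g : ((ι → ℕ → CA A) × UA A × UA A) × (τ → UA A) × (β → UA A) =>
      BubP P δ m g.1.1 g.1.2.1 g.1.2.2 g.2.1 g.2.2 := by
  haveI : Fact (Continuous (rp (1 / 8) 3)) := ⟨rp_cont _ _⟩
  haveI : Fact (Continuous (Gf δ)) := ⟨Gf_cont hδ⟩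
  haveI : Fact (Continuous (gm δ)) := ⟨gm_cont hδ⟩
  unfold BubP; infer_instance

/-- bubbles that see the family `T` -/
def BubQ {τ β : Type} (P : Type) (t e : UA A) (T : τ → UA A) (al : β → UA A) : Prop :=
  ∃ (ι : Type) (_ : Fintype ι) (m : β → ι) (V : β × P → UA A) (c : P × ι → ℕ → CA A),
    (∀ k, uφ (c k) 1 * uφ (c k) 1 = uφ (c k) 1 ∧ t * uφ (c k) 1 = 0 ∧
      (∀ k', k ≠ k' → uφ (c k) 1 * uφ (c k') 1 = 0) ∧ (∀ l, Vis (c k) (T l)) ∧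
      ∀ b, Vis (c k) (al b)) ∧
    ∀ x, star (V x) * V x = e ∧ cfc (rp (1 / 8) 3) (uT (c (x.2, m x.1)) 1 * al x.1) * V x = V x

end Pool.Agent.Lib.MP_30b5b4_an
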