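import Pool.Agent.Lib.MP_30b5b4_an.L.Defs

/-! The outer layer, local form. -/

open scoped CStarAlgebra ComplexOrder Topology
open Filter

set_option linter.unusedSectionVars false
set_option linter.style.haveILetI false
set_option linter.unusedVariables false
set_option linter.unusedSimpArgs false
set_option synthInstance.maxSize 1000000

namespace Pool.Agent.Lib.MP_30b5b4_an

universe u v

variable {J E : Type*} {A : Type u} {A' : Type v} [NonUnitalCStarAlgebra J] [PartialOrder J]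
  [StarOrderedRing J] [NonUnitalCStarAlgebra E] [PartialOrder E] [StarOrderedRing E]
  [CStarAlgebra A] [PartialOrder A] [StarOrderedRing A] [CStarAlgebra A'] [PartialOrder A']
  [StarOrderedRing A'] {j : J →⋆ₙₐ[ℂ] A} {jE : E →⋆ₙₐ[ℂ] A} {π : A →⋆ₐ[ℂ] A'}

/-- local approximations in the ambient algebra give approximations of the ideal -/
theorem Idl.ap_of_local (hE : Idl jE) {N : ℕ}
    (h : ∀ {σ : Type} [Finite σ] (s : σ → A) (e e' : A), (∃ c, jE c = e') → 0 ≤ e' → e' ≤ 1 →
      0 ≤ e → e ≤ 1 → e' * e = e → (∀ l, ‖s l‖ ≤ 1 ∧ e * s l = s l ∧ s l * e = s l) →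
      ∀ ε : ℝ, 0 < ε → ∃ d : Fin N → CA A, ∀ l, ‖∑ i, (d i).T (s l) - s l‖ ≤ ε) :
    Ap jE N False := by
  classical
  refine Ap.of_ball fun S ε hε hS1 => ?_
  obtain ⟨η, hη, rfl⟩ : ∃ η : ℝ, 0 < η ∧ ε = 7 * η := ⟨ε / 7, by positivity, by ring⟩
  have h2 : 0 < η ^ 2 := by positivity
  have hδ : 0 < η ^ 2 / 4 := by positivity
  obtain ⟨R, hR⟩ : ∃ R : A, R = ∑ a ∈ S, (jE a * star (jE a) + star (jE a) * jE a) := ⟨_, rfl⟩
  have t0 : ∀ a ∈ S, 0 ≤ jE a * star (jE a) + star (jE a) * jE a := fun a _ =>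
    add_nonneg (mul_star_self_nonneg _) (star_mul_self_nonneg _)
  have R0 : 0 ≤ R := hR ▸ Finset.sum_nonneg t0
  have Rs := R0.isSelfAdjoint
  have R1 : ∃ c, jE c = R := ⟨∑ a ∈ S, (a * star a + star a * a), by
    simp only [hR, map_sum, map_add, map_mul, map_star]⟩
  have R2 : ∀ a ∈ S, jE a * star (jE a) + star (jE a) * jE a ≤ R := fun a ha =>
    hR ▸ Finset.single_le_sum t0 ha
  let k : ℝ → ℝ := fun t => √(max (t - η ^ 2) 0)
  have k0 : Continuous k := by fun_prop
  have V0 : star (cfc k R) = cfc k R := IsSelfAdjoint.cfc.star_eq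
  have V1 : cfc k R * star (cfc k R) = cfc (fun t => max (t - η ^ 2) 0) R := by
    rw [V0, cfc_mul' k0 k0]
    exact congrArg (cfc · R) (funext fun t => Real.mul_self_sqrt (le_max_right _ _))
  have V2 : R ≤ cfc k R * star (cfc k R) + η ^ 2 • 1 := by
    rw [V1, add_comm, ← Algebra.algebraMap_eq_smul_one, ← cfc_const_add _ _ _ (by fun_prop) Rs]
    conv_lhs => rw [← cfc_id' ℝ R Rs]
    refine cfc_mono (fun t _ => ?_) (by fun_prop) (by fun_prop)
    linarith [le_max_left (t - η ^ 2) 0]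
  have V3 : cfc (rp (η ^ 2 / 4) 3) R * cfc k R = cfc k R := by
    rw [cfc_mul' (rp_cont _ _) k0]
    refine congrArg (cfc · R) (funext fun t => ?_)
    rcases le_total t (η ^ 2) with h1 | h1
    · simp only [k, max_eq_right (sub_nonpos.2 h1), Real.sqrt_zero, mul_zero]
    · rw [rp_one hδ (by push_cast; linarith), one_mul]
  have W0 := rp_unit (η ^ 2 / 4) 3 R
  have W1 : cfc (rp (η ^ 2 / 4) 2) R * cfc (rp (η ^ 2 / 4) 3) R = cfc (rp (η ^ 2 / 4) 3) R :=
    rp_mix hδ hδ (by push_cast; linarith) R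
  have W2 : cfc (rp (η ^ 2 / 4) 3) R * cfc (rp (η ^ 2 / 4) 2) R = cfc (rp (η ^ 2 / 4) 3) R :=
    (cfc_commute_cfc _ _ _).eq.trans W1
  have L : Loc N (cfc (rp (η ^ 2 / 4) 3) R) := fun S' θ hθ => by
    obtain ⟨C, C0, C1⟩ : ∃ C : ℝ, 0 < C ∧ ∀ a ∈ S', ‖a‖ ≤ C :=
      ⟨∑ a ∈ S', ‖a‖ + 1, by positivity, fun a ha => by
        linarith [Finset.single_le_sum (f := fun a => ‖a‖) (fun _ _ => norm_nonneg _) ha]⟩
    obtain ⟨T, T1, T2⟩ := idl_id.compress ⟨_, rfl⟩ W0.1 W0.2
    replace T1 : ∀ a, T a = cfc (rp (η ^ 2 / 4) 3) R * a * cfc (rp (η ^ 2 / 4) 3) R := T1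
    obtain ⟨d, hd⟩ := h (fun l : Fin S'.card => C⁻¹ • T (S'.equivFin.symm l))
      (cfc (rp (η ^ 2 / 4) 2) R) (cfc (rp (η ^ 2 / 4) 1) R)
      (hE.cfc_mem R1 (rp_cont _ _) (rp_at_zero _ _)) (rp_unit _ _ _).1 (rp_unit _ _ _).2
      (rp_unit _ _ _).1 (rp_unit _ _ _).2 (rp_mix hδ hδ (by push_cast; linarith) R)
      (fun l => ⟨by
        rw [norm_smul, Real.norm_of_nonneg (by positivity), inv_mul_le_iff₀ C0, T1]
        refine norm_mul₃_le.trans ?_
        have := norm_le_one_of W0.1 W0.2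
        have := C1 _ (S'.equivFin.symm l).2
        calc _ ≤ 1 * C * 1 := by gcongr
          _ = _ := by ring,
        by rw [T1, mul_smul_comm, ← mul_assoc, ← mul_assoc, W1],
        by rw [T1, smul_mul_assoc, mul_assoc, W2]⟩) (C⁻¹ * θ) (by positivity)
    choose c c1 c2 c3 using fun i => T2 (d i)
    refine ⟨c, fun a ha => ?_⟩
    have := hd (S'.equivFin ⟨a, ha⟩)
    simp only [Colour.T_smul, Equiv.symm_apply_apply] at this
    rw [← Finset.smul_sum, ← smul_sub, norm_smul, Real.norm_of_nonneg (by positivity)] at this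
    simp only [c3, ← T1]
    exact le_of_mul_le_mul_left this (by positivity)
  refine Loc.her hE.her (W := cst (cfc (rp (η ^ 2 / 4) 3) R)) (fun _ => L) (hom_nonneg _ W0.1)
    (V := cfc k R) ?_ ?_ S hη fun a ha => ⟨hS1 a ha, ?_, ?_⟩
  · rw [V1]
    exact hE.cfc_mem R1 (by fun_prop) (by simp [h2.le])
  · rw [← dg_apply, ← map_mul, V0, V3]
  · exact ((le_add_of_nonneg_right (star_mul_self_nonneg _)).trans (R2 a ha)).trans V2
  · exact ((le_add_of_nonneg_left (mul_star_self_nonneg _)).trans (R2 a ha)).trans V2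

theorem Idl.outerL (hE : Idl jE) {n N : ℕ} (hA : Ap jE (n + 1) False) (hN : 0 < N)
    (hm : ∀ {σ : Type} [Finite σ] {M : ℕ}, 0 < M → ∀ {δ η : ℝ}, 0 < δ → 0 < η →
      ∀ S : σ → A, (∀ l, ‖S l‖ ≤ 1) → ∀ f : Fin (n + 1) → CA A,
      (∀ i x, ∃ c, jE c = (f i).φ x) → MidL N M δ η (fun l => dg (S l)) fun i _ => f i) :
    Ap jE N False := by
  classical
  refine hE.ap_of_local fun {σ} _ s e e' e1 e2 e3 e4 e5 e6 hs ε hε => ?_
  haveI := Fintype.ofFinite σ
  let S : Option σ → A := fun o => o.elim e s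
  have S1 : ∀ l, ‖S l‖ ≤ 1 := by
    rintro (_ | l)
    exacts [norm_le_one_of e4 e5, (hs l).1]
  have e7 : e * e' = e := by rw [← e4.star_eq, ← e2.star_eq, ← star_mul, e6]
  obtain ⟨f, f0, f2, f1⟩ := hA.ultraV hE (w := cst e') (fun _ => e1) (hom_nonneg _ e2)
    (by simpa using hom_mono cst e3) (fun l => dg (S l)) (by
      rintro (_ | l)
      · exact ⟨(map_mul dg e' e).symm.trans (congrArg _ e6),
          (map_mul dg e e').symm.trans (congrArg _ e7)⟩
      · refine ⟨(map_mul dg e' (s l)).symm.trans (congrArg _ ?_),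
          (map_mul dg (s l) e').symm.trans (congrArg _ ?_)⟩
        · change e' * s l = s l
          rw [← (hs l).2.1, ← mul_assoc, e6]
        · change s l * e' = s l
          rw [← (hs l).2.2, mul_assoc, e7])
  have N0 : (0 : ℝ) < N := by exact_mod_cast hN
  obtain ⟨M, hM⟩ := exists_nat_gt (24 * N / ε)
  have M0 : (0 : ℝ) < M := lt_trans (by positivity) hM
  have M1 : 0 < M := by exact_mod_cast M0
  obtain ⟨δ, hδ, δ1⟩ : ∃ δ : ℝ, 0 < δ ∧ Fintype.card (Fin (n + 1)) * (4 * δ) ≤ 1 / 4 :=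
    ⟨1 / (16 * (n + 1)), by positivity, by
      rw [Fintype.card_fin]; push_cast; exact le_of_eq (by field_simp; ring)⟩
  have hη : 0 < ε / (2 * N) := by positivity
  haveI := MidL.clo (A := A) (σ := Option σ) (N' := n + 1) N M hδ (ε / (2 * N))
  have h : MidL N M δ (ε / (2 * N)) (fun l => dg (S l)) f :=
    transfer (fun g : (Option σ → UA A) × (Fin (n + 1) → ℕ → CA A) =>
      MidL N M δ (ε / (2 * N)) g.1 g.2)
    ((Stage.pi fun l => Stage.mk (cst (S l))).prod (Stage.pi fun i => Stage.col (f i)))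
    (Eventually.of_forall fun k => hm M1 hδ hη S S1 (fun i => f i k) fun i => f0 i k)
  obtain ⟨z, -, g, -, w, -, X, -, W, -, d, hw, g1, z3, hW, hd⟩ := h
  have v0 : ∀ l i', Vis (f i') (dg (S l)) := fun l i' => Vs.vis (f2 i' l)
  have E0 : (0 : UA A) ≤ dg e := hom_nonneg _ e4
  have E1 : (dg e : UA A) ≤ 1 := by simpa using hom_mono dg e5
  obtain ⟨y, -, y1, y2, y3, y4⟩ := parts f (e := dg e) E0.isSelfAdjoint (f1 none)
    (fun i => (v0 none i).1.symm.trans (v0 none i).2) (by positivity) δ1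
  have i0 := fun i => (uφ_oz (f i)).cp.one_nonneg.isSelfAdjoint
  simp only [cf_eq _ (i0 _)] at hW
  have y5 : ∀ i, cfc (rp δ 3) (uφ (f i) 1) * y i = y i := fun i => (y2 _ (rp_cont δ 3)
    (fun t ht => rp_one hδ (by push_cast; linarith)) i).1
  have key : ∀ i, ∃ d' : ℕ → CA A, ∀ l, ‖uT d' (dg (s l)) - g i * dg (s l)‖ ≤
      ε / (2 * N) + 12 / M := fun i => by
    obtain ⟨w0, wg, cwg, nw, ng, hz⟩ := hw i
    have we : Commute (w i) (dg e) := Cn_comm nw ⟨none, rfl⟩
    have ge : Commute (g i) (dg e) := Cn_comm ng ⟨none, rfl⟩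
    have de : Commute (g i - w i) (dg e) := ge.sub_left we
    have d0 : 0 ≤ g i - w i := sub_nonneg.2 wg
    have d1 : g i - (g i - (g i - w i) * dg e) = dg e * (g i - w i) := by
      rw [sub_sub_cancel, de.eq]
    have w1 : w i ≤ g i - (g i - w i) * dg e := by
      rw [← sub_nonneg, show g i - (g i - w i) * dg e - w i = (g i - w i) * (1 - dg e) by
        noncomm_ring]
      exact ((Commute.one_right _).sub_right de).mul_nonneg d0 (sub_nonneg.2 E1)
    obtain ⟨U, U1, U2, U3⟩ := levelF (a := g i - (g i - w i) * dg e) (b := g i) (w0.trans w1)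
      (sub_le_self _ (de.mul_nonneg d0 E0))
      ((Finset.single_le_sum (f := g) (fun i _ => (hw i).1.trans (hw i).2.1)
        (Finset.mem_univ i)).trans_eq g1)
      ((Commute.refl _).sub_left (((Commute.refl _).sub_left cwg).mul_left ge.symm)) M1
      (fun k => ∑ i', W (i, k, i') * y i')
      (fun k => by
        rw [d1, mul_assoc, Finset.mul_sum, Finset.sum_eq_zero fun i' _ => ?_, mul_zero]
        rw [← mul_assoc, (hW (i, k, i')).1, zero_mul])
      (fun k => by
        have a1 : star (∑ i', W (i, k, i') * y i') * (∑ i', W (i, k, i') * y i') * z =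
            (∑ i', star (y i') * y i') * z := by
          rw [star_sum, Finset.sum_mul_sum, Finset.sum_mul, Finset.sum_mul]
          refine Finset.sum_congr rfl fun i' _ => ?_
          rw [Finset.sum_eq_single i' (fun i'' _ hi => ?_) (by simp)]
          · rw [star_mul, mul_assoc, mul_assoc, mul_assoc, mul_assoc, (y3 z z3 i').eq, ← y5,
              ← mul_assoc z, ← mul_assoc (W _), ← mul_assoc (star (W _)),
              ← mul_assoc (star (W _)), (hW (i, k, i')).2.2.2.1, y5]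
          · rw [star_mul, mul_assoc, ← mul_assoc (star (W _)),
              (hW _).2.2.1 _ (by simpa using hi.symm), zero_mul, mul_zero]
        rw [sub_sub_cancel]
        conv_lhs => rw [hz, mul_assoc z, ← mul_assoc, a1, mul_assoc, ← mul_assoc z, ← hz, de.eq,
          ← mul_assoc, y1, ← de.eq])
      (fun k l hk => by
        rw [star_sum, Finset.sum_mul_sum]
        refine Finset.sum_eq_zero fun i' _ => Finset.sum_eq_zero fun i'' _ => ?_
        rw [star_mul, mul_assoc, ← mul_assoc (star (W _)), (hW _).2.2.1 _ (by simp [hk]),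
          zero_mul, mul_zero])
      (fun k => by
        rw [Finset.mul_sum, Finset.smul_sum]
        refine Finset.sum_congr rfl fun i' _ => ?_
        rw [← mul_assoc, (hW (i, k, i')).2.1, smul_mul_assoc])
    obtain ⟨d', hd'⟩ := uconj (d i) U1.1
    refine ⟨d', fun l => ?_⟩
    have es : (dg e : UA A) * dg (s l) = dg (s l) := by rw [← map_mul, (hs l).2.1]
    have se : (dg (s l) : UA A) * dg e = dg (s l) := by rw [← map_mul, (hs l).2.2]
    have gs : Commute (g i) (dg (s l)) := Cn_comm ng ⟨some l, rfl⟩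
    have ws : Commute (w i) (dg (s l)) := Cn_comm nw ⟨some l, rfl⟩
    have v1 : ∀ i', Vis (f i') (dg (s l)) := v0 (some l)
    have a1 := U2 (dg (s l)) (gs.sub_left ((gs.sub_left ws).mul_left (es.trans se.symm))) gs
      fun k => ⟨Commute.sum_left _ _ _ fun i' _ =>
        y4 δ hδ _ v1 i' _ (hW _).2.2.2.2.1 (by
          rw [sh, mul_assoc, ← (v1 i').1]; exact ((hW (i, k, i')).2.2.2.2.2 (some l)).1),
        Commute.sum_left _ _ _ fun i' _ => y4 δ hδ _ (fun i' => (v1 i').star) i' _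
          (hW _).2.2.2.2.1 (by
            rw [sh, mul_assoc, ← (v1 i').star.1]
            exact ((hW (i, k, i')).2.2.2.2.2 (some l)).2)⟩
    have a2 : ‖uT (d i) (dg (s l)) - (g i - (g i - w i) * dg e) * dg (s l)‖ ≤ ε / (2 * N) := by
      rw [sub_mul, mul_assoc, es, ← sub_mul, sub_sub_cancel]
      exact hd i (some l)
    have a3 : ‖dg (s l)‖ ≤ 1 := (norm_dg _).trans_le (hs l).1
    generalize dg (s l) = x at a1 a2 a3 ⊢
    generalize g i - (g i - w i) * dg e = a at a2 U3
    have a4 : x * star U = star U * x := by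
      rw [← one_mul (x * _), ← U1.1, mul_assoc, ← mul_assoc U, a1.eq, mul_assoc, U1.2, mul_one]
    have a5 : uT d' x - g i * x =
        U * (uT (d i) x - a * x) * star U + (U * a - g i * U) * star U * x := by
      rw [hd', mul_sub, sub_mul, sub_mul, sub_mul, mul_assoc _ U, U1.2, mul_one,
        mul_assoc _ (star U), ← a4]
      simp only [mul_assoc]
      abel
    rw [a5]
    refine norm_add_le_of_le ?_ ((norm_mul_le_of_le
      ((CStarRing.norm_mul_mem_unitary _ (Unitary.star_mem U1)).trans_le U3) a3).trans_eq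
        (mul_one _))
    rw [CStarRing.norm_mul_mem_unitary _ (Unitary.star_mem U1), CStarRing.norm_mem_unitary_mul _ U1]
    exact a2
  choose d' hd' using key
  obtain ⟨c, hc⟩ := sT_finish d' (Finset.univ.image s) (ε := ε) fun x hx => by
    obtain ⟨l, -, rfl⟩ := Finset.mem_image.1 hx
    have a1 : ∑ i, sT (d' i) (s l) - dg (NonUnitalStarAlgHom.id ℂ A (s l)) =
        ∑ i, (uT (d' i) (dg (s l)) - g i * dg (s l)) := by
      rw [Finset.sum_sub_distrib, ← Finset.sum_mul, g1, one_mul]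
      simp only [sT_eq]
      rfl
    rw [a1]
    refine ((norm_sum_le _ _).trans (Finset.sum_le_sum fun i _ => hd' i l)).trans_lt ?_
    rw [Finset.sum_const, Finset.card_univ, Fintype.card_fin, nsmul_eq_mul, mul_add,
      show (N : ℝ) * (ε / (2 * N)) = ε / 2 by field_simp]
    rw [div_lt_iff₀ hε] at hM
    have : (N : ℝ) * (12 / M) < ε / 2 := by
      rw [← mul_div_assoc, div_lt_iff₀ M0]; linarith
    linarith
  exact ⟨c, fun l => hc _ (Finset.mem_image_of_mem _ (Finset.mem_univ l))⟩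

end Pool.Agent.Lib.MP_30b5b4_an
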